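import Pool.Agent.helper11.TX.Spec3

/-!
# TX part 3 (MP_bf63dc_nt), row MNG: logarithmic weights from the general theorem
-/

set_option autoImplicit false

namespace Pool.Agent.helper11.TX

open Finset Pool.Agent.helper85.FC

theorem MNG_Lam_nonneg (W a b : ℕ) (c : ℤ) : 0 ≤ Lam W a b c := by
  unfold Lam
  refine prod_nonneg fun l hl => ?_
  have hl2 : (2 : ℝ) ≤ l := by exact_mod_cast (Nat.prime_of_mem_primeFactors hl).two_le
  have hl0 : (0 : ℝ) < l := by linarith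
  split_ifs
  · have : 1 / (l : ℝ) ≤ 1 := by
      rw [div_le_one hl0]; linarith
    linarith
  · have : 2 / (l : ℝ) ≤ 1 := by
      rw [div_le_one hl0]; linarith
    linarith

theorem MNG_Tw_nonneg (W a b M : ℕ) (u : ℤ) : 0 ≤ Tw TrueCase (Lam W) a b M u := by
  classical
  unfold Tw
  exact sum_nonneg fun c _ => MNG_Lam_nonneg W a b c

theorem MNG_Sm (W N M : ℕ) (u : ℤ) : Sm TrueCase (Lam W) N M u =
    ∑ a ∈ Icc 1 N, ∑ b ∈ Icc 1 N, 1 / ((a : ℝ) * (b : ℝ) ^ 2) *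
      Tw TrueCase (Lam W) a b M u := rfl

theorem MNG_Sm_nonneg (W N M : ℕ) (u : ℤ) : 0 ≤ Sm TrueCase (Lam W) N M u := by
  rw [MNG_Sm]
  refine sum_nonneg fun a _ => sum_nonneg fun b _ => mul_nonneg (by positivity) ?_
  exact MNG_Tw_nonneg W a b M u

theorem MNG_yy_pos (W n : ℕ) : 0 < yy W n := by
  unfold yy
  refine prod_pos fun l hl => ?_
  have hl2 : (2 : ℝ) ≤ l := by
    exact_mod_cast (Nat.prime_of_mem_primeFactors (mem_filter.1 hl).1).two_le
  have : 1 / (l : ℝ) ≤ 1 / 2 := one_div_le_one_div_of_le (by norm_num) hl2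
  linarith

theorem MNG_GG (hGC : GC_stmt) (W N M : ℕ) (u : ℤ) :
    GG W (Icc 1 N) (fun s => 1 / (s : ℝ)) M u ≤ ZZ N * Sm TrueCase (Lam W) N M u := by
  have h1 : GG W (Icc 1 N) (fun s => 1 / (s : ℝ)) M u =
      ∑ s ∈ Icc 1 N, ∑ t ∈ Icc 1 N, (fun s t : ℕ => 1 / (s : ℝ) * (1 / (t : ℝ)) /
        ((s / Nat.gcd s t : ℕ) : ℝ) *
        Tw TrueCase (Lam W) (t / Nat.gcd s t) (s / Nat.gcd s t) M u) s t := rfl
  rw [h1, hGC N]
  unfold ZZ
  rw [sum_mul]
  refine sum_le_sum fun g hg => ?_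
  have hg1 : 1 ≤ g := (mem_Icc.1 hg).1
  have hg0 : (g : ℝ) ≠ 0 := by
    have : (1 : ℝ) ≤ g := by exact_mod_cast hg1
    linarith
  have hterm : ∀ a b : ℕ, 0 ≤ 1 / (g : ℝ) ^ 2 * (1 / ((b : ℝ) * (a : ℝ) ^ 2) *
      Tw TrueCase (Lam W) b a M u) := fun a b =>
    mul_nonneg (by positivity) (mul_nonneg (by positivity) (MNG_Tw_nonneg W b a M u))
  have hNg : Icc 1 (N / g) ⊆ Icc 1 N := Icc_subset_Icc_right (Nat.div_le_self N g)
  calc _ = ∑ a ∈ Icc 1 (N / g), ∑ b ∈ Icc 1 (N / g) with Nat.Coprime a b,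
        1 / (g : ℝ) ^ 2 * (1 / ((b : ℝ) * (a : ℝ) ^ 2) * Tw TrueCase (Lam W) b a M u) := by
        refine sum_congr rfl fun a ha => sum_congr rfl fun b hb => ?_
        have ha1 : 1 ≤ a := (mem_Icc.1 ha).1
        have hb1 : 1 ≤ b := (mem_Icc.1 (mem_filter.1 hb).1).1
        have hab : Nat.Coprime a b := (mem_filter.1 hb).2
        have hgcd : Nat.gcd (g * a) (g * b) = g := by
          rw [Nat.gcd_mul_left, hab.gcd_eq_one, mul_one]
        have ha0 : (a : ℝ) ≠ 0 := by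
          have : (1 : ℝ) ≤ a := by exact_mod_cast ha1
          linarith
        have hb0 : (b : ℝ) ≠ 0 := by
          have : (1 : ℝ) ≤ b := by exact_mod_cast hb1
          linarith
        simp only [hgcd, Nat.mul_div_cancel_left _ hg1]
        push_cast
        field_simp
    _ ≤ ∑ a ∈ Icc 1 (N / g), ∑ b ∈ Icc 1 N,
        1 / (g : ℝ) ^ 2 * (1 / ((b : ℝ) * (a : ℝ) ^ 2) * Tw TrueCase (Lam W) b a M u) := by
        refine sum_le_sum fun a _ => ?_
        exact sum_le_sum_of_subset_of_nonneg ((filter_subset _ _).trans hNg)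
          fun b _ _ => hterm a b
    _ ≤ ∑ a ∈ Icc 1 N, ∑ b ∈ Icc 1 N,
        1 / (g : ℝ) ^ 2 * (1 / ((b : ℝ) * (a : ℝ) ^ 2) * Tw TrueCase (Lam W) b a M u) :=
        sum_le_sum_of_subset_of_nonneg hNg fun a _ _ => sum_nonneg fun b _ => hterm a b
    _ = 1 / (g : ℝ) ^ 2 * Sm TrueCase (Lam W) N M u := by
        rw [MNG_Sm, sum_comm, mul_sum]
        refine sum_congr rfl fun b _ => ?_
        rw [mul_sum]

/-- **Row MNG.** -/
theorem MNG (h : GC_stmt) : MNG_stmt := by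
  intro κ m hκ0 hκ1 hNG hMQ W η hW hmW hη hη1 hT ε hε
  have hV : ∀ N, 0 ≤ VW W N := by
    intro N
    unfold VW
    refine sum_nonneg fun a _ => sum_nonneg fun b _ => ?_
    exact div_nonneg (MNG_yy_pos W _).le (by positivity)
  by_cases hεκ : κ ≤ ε
  · refine ⟨0, fun N _ => ⟨0, fun M _ u => ?_⟩⟩
    have h0 : 0 ≤ 1 - η := by linarith
    have hA : 0 ≤ (1 - η) * M * PW W ^ 2 * VW W N := by
      have := hV N
      positivity
    have hB : (κ - ε) * (1 - η) * M * PW W ^ 2 * VW W N =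
        (κ - ε) * ((1 - η) * M * PW W ^ 2 * VW W N) := by ring
    rw [hB]
    exact (mul_nonpos_of_nonpos_of_nonneg (by linarith) hA).trans (MNG_Sm_nonneg W N M u)
  push Not at hεκ
  obtain ⟨N₀, hN₀⟩ := hMQ W η hW hmW hη hη1 hT ((1 - η) * (ε / 2))
    (mul_pos (by linarith) (by linarith))
  refine ⟨max N₀ 1, fun N hN => ?_⟩
  have hN1 : 1 ≤ N := (le_max_right _ _).trans hN
  obtain ⟨M₀, hM₀⟩ := hNG W hW hmW (Icc 1 N) (fun s => 1 / (s : ℝ))
    (fun s hs => ⟨(mem_Icc.1 hs).1, by positivity⟩) (ε / 2) (by linarith)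
  refine ⟨M₀, fun M hM u => ?_⟩
  have e1 := hM₀ M hM u
  have e2 := hN₀ N ((le_max_left _ _).trans hN)
  have e3 := MNG_GG h W N M u
  have e4 : PW W * ∑ s ∈ Icc 1 N, 1 / (s : ℝ) * yy W s = mm W N := by
    unfold mm
    congr 1
    exact sum_congr rfl fun s _ => by ring
  rw [e4] at e1
  have hZ : 0 < ZZ N := by
    unfold ZZ
    refine sum_pos (fun g hg => ?_) ⟨1, mem_Icc.2 ⟨le_rfl, hN1⟩⟩
    have : (1 : ℝ) ≤ g := by exact_mod_cast (mem_Icc.1 hg).1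
    positivity
  have hκε : 0 ≤ (κ - ε / 2) * M := mul_nonneg (by linarith) (Nat.cast_nonneg M)
  have e5 := mul_le_mul_of_nonneg_left e2 hκε
  have e6 : ZZ N * ((κ - ε / 2) * (1 - ε / 2) * ((1 - η) * M * PW W ^ 2 * VW W N)) ≤
      ZZ N * Sm TrueCase (Lam W) N M u := by
    calc _ = (κ - ε / 2) * M * ((1 - η - (1 - η) * (ε / 2)) * ZZ N * PW W ^ 2 * VW W N) := by
          ring
      _ ≤ (κ - ε / 2) * M * mm W N ^ 2 := e5
      _ ≤ GG W (Icc 1 N) (fun s => 1 / (s : ℝ)) M u := e1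
      _ ≤ ZZ N * Sm TrueCase (Lam W) N M u := e3
  have e7 := le_of_mul_le_mul_left e6 hZ
  refine le_trans ?_ e7
  have h0 : 0 ≤ (1 - η) * M * PW W ^ 2 * VW W N := by
    have := hV N
    have : 0 ≤ 1 - η := by linarith
    positivity
  have e8 : κ - ε ≤ (κ - ε / 2) * (1 - ε / 2) := by nlinarith
  calc (κ - ε) * (1 - η) * M * PW W ^ 2 * VW W N
      = (κ - ε) * ((1 - η) * M * PW W ^ 2 * VW W N) := by ring
    _ ≤ _ := mul_le_mul_of_nonneg_right e8 h0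

end Pool.Agent.helper11.TX
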